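import Pool.Agent.N232.K17.Loc

/-!
# Project K15 (helper875), part TAM (helper152): the local computation

The group of the points with nonsingular reduction of `y² + x y = x³ - 2 x² - 9 x` over discretely valued
fields. Extends `Pool/Agent/N232/K17/Loc.lean` (types `I_{2n}` not split, and `I_8` split).
-/

set_option autoImplicit false
set_option linter.unusedSectionVars false
set_option linter.unusedVariables false

namespace Pool.Agent.N152.K15

open scoped Classical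
open WeierstrassCurve WithZero
open Pool.Agent.Y809.BSD14 (nadd nsub nmul npow nneg ladd lsub lneg lmul lmul' norm_eq_of_lt nnat Sg)
open Pool.Agent.Y641.XF (Ns HH mem_HH Dsc nf nf_ultra nf_le_one nf_lt_one nf_eq_one nf_half nf_dsc
  nf_eq E0_eq)
open Pool.Agent.Y682.XF (base E0)
open Pool.Agent.N232.K17 (IsN Nod norm_four norm_eight lt_of_sq lt_or_lt good_two ne_zero_of_norm
  index_of' nf_quarter)

section norm

variable {K : Type} [NormedField K] [IsUltrametricDist K] {W : WeierstrassCurve.Affine K} {a b c : K}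

/-- the square of the slope of a point -/
theorem slope_sq (N : Nod W a b c) {x y : K} (hn : W.Nonsingular x y) (h0 : 4 * x - a ≠ 0) :
    (4 * (2 * y + x) / (4 * x - a)) ^ 2 - (a - c) =
      (a - b) / (4 * x - a) * ((a - c) + (4 * x - a)) + (4 * x - a) := by
  have hE := N.h.eqn hn.1
  rw [div_pow, hE]
  field_simp
  ring

theorem slope_lt (N : Nod W a b c) {x y : K} (hn : W.Nonsingular x y)
    (hlt : ‖a - b‖ < ‖4 * x - a‖) (hx : ‖4 * x - a‖ < 1) :
    ‖(4 * (2 * y + x) / (4 * x - a)) ^ 2 - (a - c)‖ < 1 := by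
  have hpos : 0 < ‖4 * x - a‖ := (norm_nonneg _).trans_lt hlt
  have h0 : 4 * x - a ≠ 0 := norm_pos_iff.1 hpos
  rw [slope_sq N hn h0]
  refine ladd (lmul' ?_ (nadd N.hac.le hx.le)) hx
  rw [norm_div, div_lt_one hpos]
  exact hlt

/-- not split: two components -/
theorem two_ns (N : Nod W a b c) (hns : ∀ z : K, ¬ ‖z ^ 2 - (a - c)‖ < 1) : (HH W).index = 2 := by
  refine index_of' (HH W) ![0, N.T] ?_ ?_
  · intro P
    rcases P with _ | ⟨x, y, hn⟩
    · refine ⟨0, ?_⟩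
      show (0 : W.Point) - 0 ∈ HH W
      rw [sub_zero]
      exact zero_mem _
    by_cases hx : ‖4 * x - a‖ < 1
    swap
    · push Not at hx
      refine ⟨0, ?_⟩
      show Affine.Point.some x y hn - 0 ∈ HH W
      rw [sub_zero]
      exact N.isin hn hx
    refine ⟨1, ?_⟩
    show Affine.Point.some x y hn - N.T ∈ HH W
    rw [sub_eq_add_neg, neg_eq_of_add_eq_zero_left N.T2]
    refine N.trans hn ?_
    by_contra hcon
    push Not at hcon
    exact hns _ (slope_lt N hn hcon hx)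
  · intro i j hij
    fin_cases i <;> fin_cases j
    · rfl
    · exfalso
      have h1 : (0 : W.Point) - N.T ∈ HH W := hij
      rw [zero_sub, neg_mem_iff] at h1
      exact N.T_notin h1
    · exfalso
      have h1 : N.T - (0 : W.Point) ∈ HH W := hij
      rw [sub_zero] at h1
      exact N.T_notin h1
    · rfl

/-- the points of norm `ρ` on the side `s` -/
def Cq (W : WeierstrassCurve.Affine K) (a s : K) (ρ : ℝ) (P : W.Point) : Prop :=
  ∃ x y hn, P = Affine.Point.some x y hn ∧ ‖4 * x - a‖ = ρ ∧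
    ‖4 * (2 * y + x) / (4 * x - a) - s‖ < 1

theorem cq_notin (N : Nod W a b c) {s : K} {ρ : ℝ} (hρ : ρ < 1) {P : W.Point}
    (h : Cq W a s ρ P) : P ∉ HH W := by
  obtain ⟨x, y, hn, rfl, h1, -⟩ := h
  exact N.notin hn (by rw [h1]; exact hρ)

theorem cq_neg (N : Nod W a b c) {s : K} {ρ : ℝ} {P : W.Point} (h : Cq W a s ρ P) :
    Cq W a (-s) ρ (-P) := by
  obtain ⟨x, y, hn, rfl, h1, h2⟩ := h
  obtain ⟨H, e⟩ := N.h.neg hn
  refine ⟨x, -y - x, H, e, h1, ?_⟩
  have e2 : 4 * (2 * (-y - x) + x) / (4 * x - a) - -s =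
      -(4 * (2 * y + x) / (4 * x - a) - s) := by ring
  rw [e2, norm_neg]
  exact h2

/-- a point between is on one of the two sides -/
theorem cq_or (N : Nod W a b c) {s : K} (hs : s ^ 2 = a - c) {x y : K} (hn : W.Nonsingular x y)
    {ρ : ℝ} (hρ : ‖4 * x - a‖ = ρ) (hlt : ‖a - b‖ < ρ) (hx : ρ < 1) :
    Cq W a s ρ (Affine.Point.some x y hn) ∨ Cq W a (-s) ρ (Affine.Point.some x y hn) := by
  subst hρ
  have h1 := slope_lt N hn hlt hx
  rw [← hs] at h1
  have e : (4 * (2 * y + x) / (4 * x - a)) ^ 2 - s ^ 2 =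
    (4 * (2 * y + x) / (4 * x - a) - s) * (4 * (2 * y + x) / (4 * x - a) + s) := by ring
  rw [e] at h1
  rcases lt_or_lt h1 with h4 | h4
  · exact Or.inl ⟨x, y, hn, rfl, rfl, h4⟩
  · refine Or.inr ⟨x, y, hn, rfl, rfl, ?_⟩
    rwa [sub_neg_eq_add]

/-- the sum of two points of opposite sides -/
theorem cq_sum (N : Nod W a b c) {s : K} (hs : s ^ 2 = a - c) {x1 y1 x2 y2 : K}
    (h1 : W.Nonsingular x1 y1) (h2 : W.Nonsingular x2 y2) (u1 : 4 * x1 - a ≠ 0)
    (u2 : 4 * x2 - a ≠ 0) (m1 : ‖4 * (2 * y1 + x1) / (4 * x1 - a) - s‖ < 1)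
    (m2 : ‖4 * (2 * y2 + x2) / (4 * x2 - a) - -s‖ < 1) :
    (x1 = x2 ∧ (Affine.Point.some x1 y1 h1 + Affine.Point.some x2 y2 h2 : W.Point) = 0) ∨
    ∃ X Y H, (Affine.Point.some x1 y1 h1 + Affine.Point.some x2 y2 h2 : W.Point) =
      Affine.Point.some X Y H ∧
      ‖4 * X - a‖ * ‖4 * x1 - 4 * x2‖ ^ 2 = ‖4 * x1 - a‖ * ‖4 * x2 - a‖ := by
  have ns : ‖s‖ = 1 := by
    have : ‖s‖ ^ 2 = 1 := by rw [← norm_pow, hs, N.hac]
    exact (pow_eq_one_iff_of_nonneg (norm_nonneg _) two_ne_zero).1 this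
  obtain ⟨t1, ht1⟩ : ∃ t, t = 4 * (2 * y1 + x1) / (4 * x1 - a) := ⟨_, rfl⟩
  obtain ⟨t2, ht2⟩ : ∃ t, t = 4 * (2 * y2 + x2) / (4 * x2 - a) := ⟨_, rfl⟩
  rw [← ht1] at m1
  rw [← ht2] at m2
  have hY1 : 4 * (2 * y1 + x1) = t1 * (4 * x1 - a) := by
    rw [ht1, div_mul_cancel₀ _ u1]
  have hY2 : 4 * (2 * y2 + x2) = t2 * (4 * x2 - a) := by
    rw [ht2, div_mul_cancel₀ _ u2]
  have nt : ‖t1 - t2‖ = 1 := by
    have e : t1 - t2 = 2 * s + ((t1 - s) - (t2 - -s)) := by ring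
    rw [e, norm_eq_of_lt, norm_mul, N.h2, ns, one_mul]
    rw [norm_mul, N.h2, ns, one_mul]
    exact lsub m1 m2
  by_cases hx : x1 = x2
  · subst hx
    refine Or.inl ⟨rfl, ?_⟩
    have hE1 := N.h.eqn h1.1
    have hE2 := N.h.eqn h2.1
    have e1 : (t1 * (4 * x1 - a)) ^ 2 = (t2 * (4 * x1 - a)) ^ 2 := by
      rw [← hY1, ← hY2, hE1, hE2]
    have e2 : (t1 - t2) * (t1 + t2) = 0 := by
      have e3 : ((t1 - t2) * (t1 + t2)) * (4 * x1 - a) ^ 2 = 0 := by linear_combination e1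
      exact (mul_eq_zero.1 e3).resolve_right (pow_ne_zero _ u1)
    have e3 : t1 + t2 = 0 :=
      (mul_eq_zero.1 e2).resolve_left (ne_zero_of_norm one_ne_zero nt)
    have h8 : (8 : K) ≠ 0 := ne_zero_of_norm one_ne_zero (norm_eight N.h2)
    have e4 : y1 = W.negY x1 y2 := by
      rw [Affine.negY, N.h.a1, N.h.a3]
      apply mul_left_cancel₀ h8
      linear_combination hY1 + hY2 + (4 * x1 - a) * e3
    exact Affine.Point.add_of_Y_eq rfl e4
  · refine Or.inr ?_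
    obtain ⟨X, Y, H, e, hX⟩ := N.h.addP h1 h2 hx
    refine ⟨X, Y, H, e, ?_⟩
    rw [hY1, hY2] at hX
    have hX2 : (4 * X - a) * (4 * x1 - 4 * x2) ^ 2 =
        ((4 * x1 - a) * (4 * x2 - a)) * (t1 - t2) ^ 2 := by
      apply mul_left_cancel₀ (mul_ne_zero u1 u2)
      linear_combination hX
    have hX3 := congrArg norm hX2
    rw [norm_mul, norm_mul, norm_mul, norm_pow, norm_pow, nt, one_pow, mul_one] at hX3
    exact hX3

/-- the sum of two points of the same norm on the opposite sides -/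
theorem cq_add (N : Nod W a b c) {s : K} (hs : s ^ 2 = a - c) {ρ : ℝ} (hρ : 0 < ρ) {P Q : W.Point}
    (hP : Cq W a s ρ P) (hQ : Cq W a (-s) ρ Q) : P + Q ∈ HH W := by
  obtain ⟨x1, y1, h1, rfl, n1, m1⟩ := hP
  obtain ⟨x2, y2, h2, rfl, n2, m2⟩ := hQ
  have u1 : 4 * x1 - a ≠ 0 := ne_zero_of_norm hρ.ne' n1
  have u2 : 4 * x2 - a ≠ 0 := ne_zero_of_norm hρ.ne' n2
  rcases cq_sum N hs h1 h2 u1 u2 m1 m2 with ⟨-, e⟩ | ⟨X, Y, H, e, hX⟩
  · rw [e]
    exact zero_mem _
  · rw [e]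
    apply N.isin
    have h5 : ‖4 * x1 - 4 * x2‖ ≤ ρ := by
      have e5 : 4 * x1 - 4 * x2 = (4 * x1 - a) + -(4 * x2 - a) := by ring
      rw [e5]
      refine (IsUltrametricDist.norm_add_le_max _ _).trans (max_le n1.le ?_)
      rw [norm_neg]
      exact n2.le
    by_contra hcon
    push Not at hcon
    have h6 : ‖4 * x1 - 4 * x2‖ ^ 2 ≤ ρ ^ 2 := pow_le_pow_left₀ (norm_nonneg _) h5 2
    have h7 : ‖4 * X - a‖ * ‖4 * x1 - 4 * x2‖ ^ 2 ≤ ‖4 * X - a‖ * ρ ^ 2 :=
      mul_le_mul_of_nonneg_left h6 (norm_nonneg _)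
    rw [hX, n1, n2] at h7
    have h8 : 0 < ρ ^ 2 := by positivity
    nlinarith

/-- the sum of two points of different norms on the opposite sides -/
theorem cq_add_lt (N : Nod W a b c) {s : K} (hs : s ^ 2 = a - c) {ρ σ : ℝ} (hρ : 0 < ρ)
    (hρσ : ρ < σ) {P Q : W.Point} (hP : Cq W a s ρ P) (hQ : Cq W a (-s) σ Q) :
    ∃ X Y H, P + Q = Affine.Point.some X Y H ∧ ‖4 * X - a‖ = ρ / σ := by
  obtain ⟨x1, y1, h1, rfl, n1, m1⟩ := hP
  obtain ⟨x2, y2, h2, rfl, n2, m2⟩ := hQ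
  have hσ : 0 < σ := hρ.trans hρσ
  have u1 : 4 * x1 - a ≠ 0 := ne_zero_of_norm hρ.ne' n1
  have u2 : 4 * x2 - a ≠ 0 := ne_zero_of_norm hσ.ne' n2
  rcases cq_sum N hs h1 h2 u1 u2 m1 m2 with ⟨e0, -⟩ | ⟨X, Y, H, e, hX⟩
  · exfalso
    rw [e0, n2] at n1
    exact hρσ.ne' n1
  · refine ⟨X, Y, H, e, ?_⟩
    have h5 : ‖4 * x1 - 4 * x2‖ = σ := by
      have e5 : 4 * x1 - 4 * x2 = -(4 * x2 - a) + (4 * x1 - a) := by ring
      rw [e5, norm_eq_of_lt, norm_neg, n2]
      rw [norm_neg, n1, n2]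
      exact hρσ
    rw [h5, n1, n2] at hX
    rw [eq_div_iff hσ.ne']
    have h6 : (‖4 * X - a‖ * σ - ρ) * σ = 0 := by linear_combination hX
    have := (mul_eq_zero.1 h6).resolve_right hσ.ne'
    linarith

/-- adding the point of order two -/
theorem cq_T (N : Nod W a b c) {s : K} (hs : s ^ 2 = a - c) {x y : K} (hn : W.Nonsingular x y)
    {ρ σ : ℝ} (hρ : ‖4 * x - a‖ = ρ) (hρ0 : 0 < ρ) (hσ : ‖a - b‖ / ρ = σ) (h1 : ‖a - b‖ < σ)
    (h2 : σ < 1) : Cq W a s σ (Affine.Point.some x y hn + N.T) ∨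
      Cq W a (-s) σ (Affine.Point.some x y hn + N.T) := by
  have u1 : 4 * x - a ≠ 0 := ne_zero_of_norm hρ0.ne' hρ
  obtain ⟨X, Y, H, e, hX⟩ := N.h.addT N.z2 hn N.nonsing u1
  have e' : Affine.Point.some x y hn + N.T = Affine.Point.some X Y H := e
  rw [e']
  refine cq_or N hs H ?_ h1 h2
  rw [hX, norm_div, norm_mul, N.hac, mul_one, hρ, hσ]

/-- a cyclic quotient -/
theorem index_cyc {G : Type} [AddCommGroup G] (H : AddSubgroup G) (Q : G) (n : ℕ)
    (h : addOrderOf (QuotientAddGroup.mk Q : G ⧸ H) = n) (hs : ∀ P, ∃ k : ℤ, P - k • Q ∈ H) :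
    H.index = n := by
  have htop : AddSubgroup.zmultiples (QuotientAddGroup.mk Q : G ⧸ H) = ⊤ := by
    rw [eq_top_iff]
    intro q _
    induction q using QuotientAddGroup.induction_on with
    | H P =>
      obtain ⟨k, hk⟩ := hs P
      rw [AddSubgroup.mem_zmultiples_iff]
      refine ⟨k, ?_⟩
      rw [← QuotientAddGroup.mk_zsmul, QuotientAddGroup.eq, ← sub_eq_neg_add]
      exact hk
  rw [AddSubgroup.index, ← AddSubgroup.card_top (G := G ⧸ H), ← htop, Nat.card_zmultiples, h]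

/-- type `I_8` -/
theorem eight (N : Nod W a b c) (hd : Dsc K) {s : K} (hs : s ^ 2 = a - c)
    (hab : ‖a - b‖ = 1 / 16) {x0 y0 : K} (hn0 : W.Nonsingular x0 y0) (hx0 : ‖4 * x0 - a‖ = 1 / 2)
    {x1 y1 : K} (hn1 : W.Nonsingular x1 y1) (hx1 : ‖4 * x1 - a‖ = 1 / 4) :
    (HH W).index = 8 := by
  obtain ⟨Q, hQ⟩ : ∃ Q : W.Point, Cq W a s (1 / 2) Q := by
    rcases cq_or N hs hn0 hx0 (by rw [hab]; norm_num) (by norm_num) with h | h
    · exact ⟨_, h⟩
    · refine ⟨-Affine.Point.some x0 y0 hn0, ?_⟩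
      have h1 := cq_neg N h
      rwa [neg_neg] at h1
  obtain ⟨R, hR⟩ : ∃ R : W.Point, Cq W a s (1 / 4) R := by
    rcases cq_or N hs hn1 hx1 (by rw [hab]; norm_num) (by norm_num) with h | h
    · exact ⟨_, h⟩
    · refine ⟨-Affine.Point.some x1 y1 hn1, ?_⟩
      have h1 := cq_neg N h
      rwa [neg_neg] at h1
  have hQ' := cq_neg N hQ
  have hR' := cq_neg N hR
  have hs' : (-s) ^ 2 = a - c := by rw [neg_sq, hs]
  have T0 := N.T_notin
  -- `2 R + T`
  have k1 : R + R + N.T ∈ HH W := by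
    obtain ⟨x, y, hn, e, n1, -⟩ := id hR
    have h1 := cq_T N hs hn n1 (by norm_num) (σ := 1 / 4) (by rw [hab]; norm_num)
      (by rw [hab]; norm_num) (by norm_num)
    rw [← e] at h1
    rcases h1 with h1 | h1
    · exfalso
      have h2 := cq_add N hs (by norm_num) h1 hR'
      have e2 : R + N.T + -R = N.T := by abel
      rw [e2] at h2
      exact T0 h2
    · have h2 := cq_add N hs (by norm_num) hR h1
      have e2 : R + (R + N.T) = R + R + N.T := by abel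
      rwa [e2] at h2
  -- `R - 2 Q`
  have k2 : R + -Q + -Q ∈ HH W := by
    obtain ⟨X, Y, H, e, hX⟩ := cq_add_lt N hs (by norm_num) (by norm_num) hR hQ'
    have h1 := cq_or N hs H (hX.trans (by norm_num : (1 / 4 : ℝ) / (1 / 2) = 1 / 2))
      (by rw [hab]; norm_num) (by norm_num)
    rw [← e] at h1
    rcases h1 with h1 | h1
    · exact cq_add N hs (by norm_num) h1 hQ'
    · exfalso
      have h2 := cq_add N hs (by norm_num) hQ h1
      have e2 : Q + (R + -Q) = R := by abel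
      rw [e2] at h2
      exact cq_notin N (by norm_num) hR h2
  have k3 : (4 : ℤ) • Q + N.T ∈ HH W := by
    have h1 := sub_mem k1 (add_mem k2 k2)
    have e : R + R + N.T - (R + -Q + -Q + (R + -Q + -Q)) = (4 : ℤ) • Q + N.T := by
      have e1 : (4 : ℤ) • Q = Q + Q + Q + Q := by
        rw [show (4 : ℤ) = 1 + 1 + 1 + 1 by norm_num, add_zsmul, add_zsmul, add_zsmul, one_zsmul]
      rw [e1]
      abel
    rwa [e] at h1
  have T2 := N.T2
  have k4 : (4 : ℤ) • Q ∉ HH W := by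
    intro h
    have h1 := sub_mem k3 h
    rw [add_sub_cancel_left] at h1
    exact T0 h1
  have k5 : (8 : ℤ) • Q ∈ HH W := by
    have h1 := add_mem k3 k3
    have e : (4 : ℤ) • Q + N.T + ((4 : ℤ) • Q + N.T) = (8 : ℤ) • Q + (N.T + N.T) := by
      rw [show (8 : ℤ) = 4 + 4 by norm_num, add_zsmul]
      abel
    rwa [e, T2, add_zero] at h1
  have hord : addOrderOf (QuotientAddGroup.mk Q : W.Point ⧸ HH W) = 2 ^ (2 + 1) := by
    apply addOrderOf_eq_prime_pow
    · rw [← QuotientAddGroup.mk_nsmul, QuotientAddGroup.eq_zero_iff]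
      intro h
      apply k4
      rw [show (4 : ℤ) = ((2 ^ 2 : ℕ) : ℤ) by norm_num, natCast_zsmul]
      exact h
    · rw [← QuotientAddGroup.mk_nsmul, QuotientAddGroup.eq_zero_iff]
      rw [show (8 : ℤ) = ((2 ^ (2 + 1) : ℕ) : ℤ) by norm_num, natCast_zsmul] at k5
      exact k5
  have h8 := index_cyc (HH W) Q _ hord
  rw [h8]
  · norm_num
  -- the classes
  have half : ∀ P : W.Point, (Cq W a s (1 / 2) P ∨ Cq W a (-s) (1 / 2) P) →
      ∃ k : ℤ, P - k • Q ∈ HH W := by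
    rintro P (h | h)
    · refine ⟨1, ?_⟩
      rw [one_zsmul, sub_eq_add_neg]
      exact cq_add N hs (by norm_num) h hQ'
    · refine ⟨-1, ?_⟩
      rw [neg_one_zsmul, sub_neg_eq_add, add_comm]
      exact cq_add N hs (by norm_num) hQ h
  intro P
  rcases P with _ | ⟨x, y, hn⟩
  · refine ⟨0, ?_⟩
    show (0 : W.Point) - (0 : ℤ) • Q ∈ HH W
    rw [zero_zsmul, sub_zero]
    exact zero_mem _
  by_cases hx : ‖4 * x - a‖ < 1
  swap
  · push Not at hx
    refine ⟨0, ?_⟩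
    rw [zero_zsmul, sub_zero]
    exact N.isin hn hx
  by_cases hx4 : ‖4 * x - a‖ ≤ 1 / 16
  · refine ⟨4, ?_⟩
    have h1 := N.trans hn (hx4.trans_eq hab.symm)
    have h2 := sub_mem h1 k3
    have e : Affine.Point.some x y hn + N.T - ((4 : ℤ) • Q + N.T) =
        Affine.Point.some x y hn - (4 : ℤ) • Q := by abel
    rwa [e] at h2
  push Not at hx4
  have h0 : 4 * x - a ≠ 0 := by
    rw [← norm_pos_iff]
    linarith
  obtain ⟨j, hj⟩ := hd _ h0
  have j1 : j < 0 := by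
    rw [hj] at hx
    by_contra hcon
    push Not at hcon
    exact absurd hx (not_lt.2 (one_le_zpow₀ (by norm_num) hcon))
  have j2 : -4 < j := by
    rw [hj] at hx4
    by_contra hcon
    push Not at hcon
    have h1 : (2 : ℝ) ^ j ≤ 2 ^ (-4 : ℤ) := zpow_le_zpow_right₀ (by norm_num) hcon
    norm_num at h1
    linarith
  have j3 : j = -1 ∨ j = -2 ∨ j = -3 := by omega
  rcases j3 with rfl | rfl | rfl
  · have h1 : ‖4 * x - a‖ = 1 / 2 := by rw [hj]; norm_num
    exact half _ (cq_or N hs hn h1 (by rw [hab]; norm_num) (by norm_num))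
  · have h1 : ‖4 * x - a‖ = 1 / 4 := by rw [hj]; norm_num
    rcases cq_or N hs hn h1 (by rw [hab]; norm_num) (by norm_num) with h | h
    · refine ⟨2, ?_⟩
      have h2 := add_mem (cq_add N hs (by norm_num) h hR') k2
      have e : Affine.Point.some x y hn + -R + (R + -Q + -Q) =
          Affine.Point.some x y hn - (2 : ℤ) • Q := by
        rw [two_zsmul]
        abel
      rwa [e] at h2
    · refine ⟨-2, ?_⟩
      have h2 := sub_mem (cq_add N hs (by norm_num) hR h) k2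
      have e : R + Affine.Point.some x y hn - (R + -Q + -Q) =
          Affine.Point.some x y hn - (-2 : ℤ) • Q := by
        rw [neg_zsmul, two_zsmul]
        abel
      rwa [e] at h2
  · have h1 : ‖4 * x - a‖ = 1 / 8 := by rw [hj]; norm_num
    obtain ⟨k, hk⟩ := half _ (cq_T N hs hn h1 (by norm_num) (σ := 1 / 2) (by rw [hab]; norm_num)
      (by rw [hab]; norm_num) (by norm_num))
    refine ⟨k + 4, ?_⟩
    have h2 := sub_mem hk k3
    have e : Affine.Point.some x y hn + N.T - k • Q - ((4 : ℤ) • Q + N.T) =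
        Affine.Point.some x y hn - (k + 4) • Q := by
      rw [add_zsmul]
      abel
    rwa [e] at h2

/-- a point with `4 x - a = w` -/
theorem exists_pt (N : Nod W a b c) {s : K} (hs : s ^ 2 = a - c)
    (hh : ∀ z : K, ‖z - 1‖ < 1 → IsSquare z) {w : K} (hw1 : ‖w‖ < 1) (hw2 : ‖a - b‖ < ‖w‖) :
    ∃ x y, ∃ hn : W.Nonsingular x y, 4 * x - a = w := by
  have hwp : 0 < ‖w‖ := (norm_nonneg _).trans_lt hw2
  have hw0 : w ≠ 0 := norm_pos_iff.1 hwp
  have hac0 : a - c ≠ 0 := ne_zero_of_norm one_ne_zero N.hac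
  have hs0 : s ≠ 0 := by
    rintro rfl
    apply hac0
    rw [← hs]
    norm_num
  have z2 := N.z2
  have z4 : (4 : K) ≠ 0 := ne_zero_of_norm one_ne_zero (norm_four N.h2)
  have hsm : ‖(1 + (a - b) / w) * (1 + w / (a - c)) - 1‖ < 1 := by
    have e : (1 + (a - b) / w) * (1 + w / (a - c)) - 1 =
        (a - b) / w + (w / (a - c) + (a - b) / w * (w / (a - c))) := by ring
    rw [e]
    have q1 : ‖(a - b) / w‖ < 1 := by
      rw [norm_div, div_lt_one hwp]
      exact hw2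
    have q2 : ‖w / (a - c)‖ < 1 := by
      rw [norm_div, N.hac, div_one]
      exact hw1
    exact ladd q1 (ladd q2 (lmul' q1 q2.le))
  obtain ⟨q, hq⟩ := hh _ hsm
  have hq0 : q ≠ 0 := by
    rintro rfl
    rw [hq, mul_zero, zero_sub, norm_neg, norm_one] at hsm
    exact lt_irrefl _ hsm
  have hq' : (w * q * s) ^ 2 = w * (w + (a - b)) * (w + (a - c)) := by
    have e1 : (w * q * s) ^ 2 = w ^ 2 * (q * q) * s ^ 2 := by ring
    rw [e1, ← hq, hs]
    field_simp
    ring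
  obtain ⟨x, hx⟩ : ∃ x : K, x = (a + w) / 4 := ⟨_, rfl⟩
  obtain ⟨y, hy⟩ : ∃ y : K, y = (w * q * s / 4 - x) / 2 := ⟨_, rfl⟩
  have hx4 : 4 * x = a + w := by rw [hx]; field_simp
  have hy2 : 2 * y + x = w * q * s / 4 := by rw [hy]; field_simp; ring
  have hy4 : 4 * (2 * y + x) = w * q * s := by rw [hy2]; field_simp
  have hN := N.h
  have hn : W.Nonsingular x y := by
    rw [Affine.nonsingular_iff, Affine.equation_iff]
    constructor
    · rw [hN.a1, hN.a3]
      have h64 : (64 : K) ≠ 0 := by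
        have : (64 : K) = 4 * 4 * 4 := by norm_num
        rw [this]
        exact mul_ne_zero (mul_ne_zero z4 z4) z4
      apply mul_left_cancel₀ h64
      have e1 : (4 * (2 * y + x)) ^ 2 = (4 * x - a) * (4 * x - b) * (4 * x - c) := by
        rw [hy4, hx4, hq']
        ring
      linear_combination e1 - 16 * x ^ 2 * hN.a2 - 4 * x * hN.a4 - hN.a6
    · right
      intro h0
      rw [hN.a1, hN.a3] at h0
      have h1 : w * q * s = 0 := by
        rw [← hy4]
        linear_combination 4 * h0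
      exact mul_ne_zero (mul_ne_zero hw0 hq0) hs0 h1
  exact ⟨x, y, hn, by rw [hx4]; ring⟩

end norm

/-! ### The local statements for valuations -/

/-- the curve `15a1` -/
def W5 : WeierstrassCurve ℤ := ⟨1, -2, 0, -9, 0⟩

theorem isN5 (k : Type) [Field k] : IsN (base W5 k).toAffine (16 : k) (-9) 0 := by
  refine ⟨?_, ?_, ?_, ?_, ?_⟩
  · show ((1 : ℤ) : k) = 1
    norm_num
  · show 4 * ((-2 : ℤ) : k) = _
    push_cast
    ring
  · show ((0 : ℤ) : k) = 0
    norm_num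
  · show 16 * ((-9 : ℤ) : k) = _
    push_cast
    ring
  · show 64 * ((0 : ℤ) : k) = _
    push_cast
    ring

theorem isN3 (k : Type) [Field k] : IsN (base W5 k).toAffine (0 : k) (-9) 16 := by
  have h := isN5 k
  exact ⟨h.a1, by rw [h.a2]; ring, h.a3, by rw [h.a4]; ring, by rw [h.a6]; ring⟩

section loc

variable {k : Type} [Field k] (v : Valuation k (WithZero (Multiplicative ℤ)))
  (hv : ∀ n : ℤ, v n ≤ 1)

theorem nf_sixteenth {x : k} : @norm k (nf v).toNorm x = 1 / 16 ↔ v x = exp (-4 : ℤ) := by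
  have := nf_eq v x (-4)
  rw [← this]
  norm_num

include hv

theorem l_good (h3 : v (3 : k) = 1) (h5 : v (5 : k) = 1) : E0 W5 k v = ⊤ := by
  let _ := nf v
  have := nf_ultra v
  have hi : ∀ n : ℤ, ‖(n : k)‖ ≤ 1 := fun n => (nf_le_one v _).2 (hv n)
  rw [E0_eq v hv]
  have n3 : ‖(3 : k)‖ = 1 := (nf_eq_one v _).2 h3
  have n5 : ‖(5 : k)‖ = 1 := (nf_eq_one v _).2 h5
  have n9 : ‖(9 : k)‖ = 1 := by
    have : (9 : k) = 3 ^ 2 := by norm_num
    rw [this, norm_pow, n3, one_pow]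
  have n25 : ‖(25 : k)‖ = 1 := by
    have : (25 : k) = 5 ^ 2 := by norm_num
    rw [this, norm_pow, n5, one_pow]
  have i2 : ‖(2 : k)‖ ≤ 1 := by exact_mod_cast hi 2
  have hN := isN5 k
  rcases lt_or_eq_of_le i2 with h2 | h2
  · refine good_two hN.a1 hN.a3 ?_ (hi _) ?_ h2
    · show ((0 : ℤ) : k) = 0
      norm_num
    · show ‖((-9 : ℤ) : k)‖ = 1
      push_cast
      rw [norm_neg, n9]
  · have n16 : ‖(16 : k)‖ = 1 := by
      have : (16 : k) = 2 ^ 4 := by norm_num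
      rw [this, norm_pow, h2, one_pow]
    refine hN.good h2 n16.le (by rw [norm_neg, n9]) (by rw [norm_zero]; exact zero_le_one)
      ?_ ?_ ?_
    · have e : (16 : k) - -9 = 25 := by norm_num
      rw [e, n25]
    · rw [sub_zero, n16]
    · rw [sub_zero, norm_neg, n9]

/-- the node at `5` -/
theorem nod5 (h2 : v (2 : k) = 1) (h5 : v (5 : k) < 1) (h50 : (5 : k) ≠ 0) :
    @Nod k (nf v) (base W5 k).toAffine (16 : k) (-9) 0 := by
  let _ := nf v
  have := nf_ultra v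
  have hi : ∀ n : ℤ, ‖(n : k)‖ ≤ 1 := fun n => (nf_le_one v _).2 (hv n)
  have n2 : ‖(2 : k)‖ = 1 := (nf_eq_one v _).2 h2
  have n5 : ‖(5 : k)‖ < 1 := (nf_lt_one v _).2 h5
  have n16 : ‖(16 : k)‖ = 1 := by
    have : (16 : k) = 2 ^ 4 := by norm_num
    rw [this, norm_pow, n2, one_pow]
  have e : (16 : k) - -9 = 5 ^ 2 := by norm_num
  refine ⟨isN5 k, n2, n16.le, ?_, by rw [norm_zero]; exact zero_le_one,
    ?_, by rw [e]; exact pow_ne_zero _ h50, by rw [sub_zero, n16], hi _, hi _⟩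
  · have := hi (-9)
    push_cast at this
    exact this
  · rw [e, norm_pow]
    exact pow_lt_one₀ (norm_nonneg _) n5 two_ne_zero

/-- the node at `3` -/
theorem nod3 (h2 : v (2 : k) = 1) (h3 : v (3 : k) < 1) (h30 : (3 : k) ≠ 0) :
    @Nod k (nf v) (base W5 k).toAffine (0 : k) (-9) 16 := by
  let _ := nf v
  have := nf_ultra v
  have hi : ∀ n : ℤ, ‖(n : k)‖ ≤ 1 := fun n => (nf_le_one v _).2 (hv n)
  have n2 : ‖(2 : k)‖ = 1 := (nf_eq_one v _).2 h2
  have n3 : ‖(3 : k)‖ < 1 := (nf_lt_one v _).2 h3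
  have n16 : ‖(16 : k)‖ = 1 := by
    have : (16 : k) = 2 ^ 4 := by norm_num
    rw [this, norm_pow, n2, one_pow]
  have e : (0 : k) - -9 = 3 ^ 2 := by norm_num
  refine ⟨isN3 k, n2, by rw [norm_zero]; exact zero_le_one, ?_, n16.le,
    ?_, by rw [e]; exact pow_ne_zero _ h30, by rw [zero_sub, norm_neg, n16], hi _, hi _⟩
  · have := hi (-9)
    push_cast at this
    exact this
  · rw [e, norm_pow]
    exact pow_lt_one₀ (norm_nonneg _) n3 two_ne_zero

/-- at `3`, not split -/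
theorem l_3ns (h2 : v (2 : k) = 1) (h3 : v (3 : k) < 1) (h30 : (3 : k) ≠ 0)
    (hns : ∀ z : k, ¬ v (z ^ 2 + 1) < 1) : (E0 W5 k v).index = 2 := by
  have N := nod3 v hv h2 h3 h30
  let _ := nf v
  have := nf_ultra v
  rw [E0_eq v hv]
  have n2 : ‖(2 : k)‖ = 1 := (nf_eq_one v _).2 h2
  have n4 := norm_four n2
  have z4 : (4 : k) ≠ 0 := ne_zero_of_norm one_ne_zero n4
  refine two_ns N fun z hz => hns (z / 4) ?_
  rw [← nf_lt_one]
  have e : (z / 4) ^ 2 + 1 = (z ^ 2 - (0 - 16)) / 4 ^ 2 := by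
    field_simp
    ring
  rw [e, norm_div, norm_pow, n4, one_pow, div_one]
  exact hz

/-- at `3`, split -/
theorem l_3s (h2 : v (2 : k) = 1) (h3 : v (3 : k) = exp (-1 : ℤ)) {i : k} (hi : v (i ^ 2 + 1) < 1)
    (hh : ∀ z : k, v (z - 1) < 1 → IsSquare z) : (E0 W5 k v).index = 4 := by
  have h30 : (3 : k) ≠ 0 := by
    rw [← Valuation.ne_zero_iff v, h3]
    exact exp_ne_zero
  have h3' : v (3 : k) < 1 := by
    rw [h3, ← exp_zero, exp_lt_exp]
    norm_num
  have N := nod3 v hv h2 h3' h30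
  let _ := nf v
  have := nf_ultra v
  rw [E0_eq v hv]
  have n3 : ‖(3 : k)‖ = 1 / 2 := (nf_half v _).2 h3
  have hh' : ∀ z : k, ‖z - 1‖ < 1 → IsSquare z := fun z hz => hh z ((nf_lt_one v _).1 hz)
  -- the square root of `-1`
  obtain ⟨s, hs⟩ : ∃ s : k, s ^ 2 = 0 - 16 := by
    have ni : ‖i ^ 2 + 1‖ < 1 := (nf_lt_one v _).2 hi
    have h1 : ‖i ^ 2‖ = 1 := by
      have e : i ^ 2 = -1 + (i ^ 2 + 1) := by ring
      rw [e, norm_eq_of_lt, norm_neg, norm_one]
      rw [norm_neg, norm_one]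
      exact ni
    have hi0 : i ^ 2 ≠ 0 := ne_zero_of_norm one_ne_zero h1
    have hi1 : i ≠ 0 := fun h => hi0 (by rw [h]; norm_num)
    obtain ⟨q, hq⟩ := hh' (-1 / i ^ 2) (by
      have e : -1 / i ^ 2 - 1 = -(i ^ 2 + 1) / i ^ 2 := by
        field_simp
        ring
      rw [e, norm_div, norm_neg, h1, div_one]
      exact ni)
    refine ⟨4 * i * q, ?_⟩
    have e : (4 * i * q) ^ 2 = 16 * i ^ 2 * (q * q) := by ring
    rw [e, ← hq]
    field_simp
    ring
  have e9 : ‖(0 : k) - -9‖ = 1 / 4 := by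
    have e : (0 : k) - -9 = 3 ^ 2 := by norm_num
    rw [e, norm_pow, n3]
    norm_num
  obtain ⟨x, y, hn, hx⟩ := exists_pt N hs hh' (w := 3) (by rw [n3]; norm_num)
    (by rw [e9, n3]; norm_num)
  exact N.four (nf_dsc v) hs e9 hn (by rw [hx, n3])

/-- at `5`, not ramified -/
theorem l_5four (h2 : v (2 : k) = 1) (h5 : v (5 : k) = exp (-1 : ℤ))
    (hh : ∀ z : k, v (z - 1) < 1 → IsSquare z) : (E0 W5 k v).index = 4 := by
  have h50 : (5 : k) ≠ 0 := by
    rw [← Valuation.ne_zero_iff v, h5]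
    exact exp_ne_zero
  have h5' : v (5 : k) < 1 := by
    rw [h5, ← exp_zero, exp_lt_exp]
    norm_num
  have N := nod5 v hv h2 h5' h50
  let _ := nf v
  have := nf_ultra v
  rw [E0_eq v hv]
  have n5 : ‖(5 : k)‖ = 1 / 2 := (nf_half v _).2 h5
  have hh' : ∀ z : k, ‖z - 1‖ < 1 → IsSquare z := fun z hz => hh z ((nf_lt_one v _).1 hz)
  have hs : (4 : k) ^ 2 = 16 - 0 := by norm_num
  have e25 : ‖(16 : k) - -9‖ = 1 / 4 := by
    have e : (16 : k) - -9 = 5 ^ 2 := by norm_num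
    rw [e, norm_pow, n5]
    norm_num
  obtain ⟨x, y, hn, hx⟩ := exists_pt N hs hh' (w := 5) (by rw [n5]; norm_num)
    (by rw [e25, n5]; norm_num)
  exact N.four (nf_dsc v) hs e25 hn (by rw [hx, n5])

/-- at `5`, ramified -/
theorem l_5eight (h2 : v (2 : k) = 1) (h5 : v (5 : k) = exp (-2 : ℤ)) {w : k}
    (hw : v w = exp (-1 : ℤ)) (hh : ∀ z : k, v (z - 1) < 1 → IsSquare z) :
    (E0 W5 k v).index = 8 := by
  have h50 : (5 : k) ≠ 0 := by
    rw [← Valuation.ne_zero_iff v, h5]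
    exact exp_ne_zero
  have h5' : v (5 : k) < 1 := by
    rw [h5, ← exp_zero, exp_lt_exp]
    norm_num
  have N := nod5 v hv h2 h5' h50
  let _ := nf v
  have := nf_ultra v
  rw [E0_eq v hv]
  have n5 : ‖(5 : k)‖ = 1 / 4 := (nf_quarter v).2 h5
  have nw : ‖w‖ = 1 / 2 := (nf_half v _).2 hw
  have hh' : ∀ z : k, ‖z - 1‖ < 1 → IsSquare z := fun z hz => hh z ((nf_lt_one v _).1 hz)
  have hs : (4 : k) ^ 2 = 16 - 0 := by norm_num
  have e25 : ‖(16 : k) - -9‖ = 1 / 16 := by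
    have e : (16 : k) - -9 = 5 ^ 2 := by norm_num
    rw [e, norm_pow, n5]
    norm_num
  obtain ⟨x, y, hn, hx⟩ := exists_pt N hs hh' (w := w) (by rw [nw]; norm_num)
    (by rw [e25, nw]; norm_num)
  obtain ⟨x', y', hn', hx'⟩ := exists_pt N hs hh' (w := 5) (by rw [n5]; norm_num)
    (by rw [e25, n5]; norm_num)
  exact eight N (nf_dsc v) hs e25 hn (by rw [hx, nw]) hn' (by rw [hx', n5])

end loc

end Pool.Agent.N152.K15
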