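import Pool.Agent.N152.K15.Loc
import Pool.Agent.N232.K17.Tam
import Pool.Agent.N875.K15.Stm

/-!
# Project K15 (helper875), part TAM (helper152): the product of the Tamagawa numbers over `K`

Compare `Pool/Agent/N232/K17/Tam.lean`.
-/

set_option autoImplicit false
set_option linter.unusedVariables false

open NumberField IsDedekindDomain WeierstrassCurve WithZero

namespace Pool.Agent.N152.K15

open scoped Classical

open Pool.Agent.N875.X15 (WN)
open Pool.Agent.N875.K17 (Qd)
open Pool.Agent.N875.K15 (S_TAM TK)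
open Pool.Agent.Y682.XF (base c Tam E0)
open Pool.Agent.H921R2.TatePole (below deg nm nm_eq)
open Pool.Agent.N49.QB (VV vv_int vv_le_one vv_one not_mem_of_not_dvd mem_of_dvd finr not_rat hensel
  vv_emb)
open Pool.Agent.N391.K17 (exists_int not_mem_sq vv_p res_int)
open Pool.Agent.N232.K17 (split_two inert_one ram_one)

theorem WN_one : WN 1 = W5 := by
  show (⟨1, -((7 * 1 + 1) / 4), 0, -(9 * 1 ^ 2), 0⟩ : WeierstrassCurve ℤ) = ⟨1, -2, 0, -9, 0⟩
  norm_num

theorem p3 : Nat.Prime 3 := by norm_num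

theorem p5 : Nat.Prime 5 := by norm_num

theorem jac5 (m : ℤ) : jacobiSym m 5 = 1 ↔ m % 5 = 1 ∨ m % 5 = 4 := by
  rw [jacobiSym.mod_left]
  have h : m % 5 = 0 ∨ m % 5 = 1 ∨ m % 5 = 2 ∨ m % 5 = 3 ∨ m % 5 = 4 := by omega
  push_cast
  rcases h with h | h | h | h | h <;> rw [h] <;> norm_num

section tam

variable {K : Type} [Field K] [NumberField K] {m : ℤ} {r : K}

theorem c_good (v : HeightOneSpectrum (𝓞 K)) (h3 : (below v : ℕ) ≠ 3) (h5 : (below v : ℕ) ≠ 5) :
    c (WN 1) v = 1 := by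
  have hvp := (nm_eq v).2.2
  have hp := (below v).2
  have key : ∀ q : ℕ, q.Prime → (below v : ℕ) ≠ q → VV v (((q : ℤ)) : v.adicCompletion K) = 1 := by
    intro q hq hne
    refine vv_one hp v hvp q ?_
    intro h1
    have h2 : (below v : ℕ) ∣ q := by exact_mod_cast h1
    exact hne ((Nat.prime_dvd_prime_iff_eq hp hq).1 h2)
  have e3 : VV v (3 : v.adicCompletion K) = 1 := by exact_mod_cast key 3 p3 h3
  have e5 : VV v (5 : v.adicCompletion K) = 1 := by exact_mod_cast key 5 p5 h5
  rw [WN_one]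
  show (E0 W5 (v.adicCompletion K) Valued.v).index = 1
  rw [l_good (VV v) (vv_le_one v) e3 e5]
  exact AddSubgroup.index_top

theorem vv_two {p : ℕ} (hp : p.Prime) (hp2 : p ≠ 2) (v : HeightOneSpectrum (𝓞 K))
    (hv : ((p : ℕ) : 𝓞 K) ∈ v.asIdeal) : VV v (2 : v.adicCompletion K) = 1 := by
  have := vv_one hp v hv 2 (by
    intro h1
    have h2 : p ∣ 2 := by exact_mod_cast h1
    exact hp2 ((Nat.prime_dvd_prime_iff_eq hp Nat.prime_two).1 h2))
  exact_mod_cast this

/-- `-1` is not a square in the residue field at a place over `3` if the residue field is prime -/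
theorem ns3 (h : Qd m K r) (hm : Squarefree m) (hm1 : m ≠ 1) (v : HeightOneSpectrum (𝓞 K))
    (hv : ((3 : ℕ) : 𝓞 K) ∈ v.asIdeal) (d : ℤ) (hd : ((3 : ℕ) : ℤ) ∣ d ^ 2 - m)
    (z : v.adicCompletion K) : ¬ VV v (z ^ 2 + 1) < 1 := by
  intro hz
  have h1 : VV v z ≤ 1 := by
    by_contra hcon
    push Not at hcon
    have h2 : VV v (z ^ 2) ≤ 1 := by
      have e : z ^ 2 = (z ^ 2 + 1) - 1 := by ring
      rw [e]
      exact (VV v).map_sub_le hz.le (VV v).map_one.le
    rw [map_pow] at h2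
    exact absurd h2 (not_le.2 (one_lt_pow' hcon (by norm_num)))
  obtain ⟨y, hy⟩ := Pool.Agent.H723R3.exists_approx_int (R := 𝓞 K) v
    ((HeightOneSpectrum.mem_adicCompletionIntegers (𝓞 K) K v).2 h1) 1
  rw [Units.val_one] at hy
  obtain ⟨k, hk⟩ := res_int h hm hm1 p3 (by norm_num) v hv d hd y
  set Y : v.adicCompletion K := algebraMap (𝓞 K) (v.adicCompletion K) y with hY
  have h3 : VV v (Y - (k : v.adicCompletion K)) < 1 := by
    have := vv_emb v _ hk
    rwa [map_sub, map_intCast] at this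
  have h4 : VV v (z - (k : v.adicCompletion K)) < 1 := by
    have e : z - (k : v.adicCompletion K) = (Y - (k : v.adicCompletion K)) - (Y - z) := by ring
    rw [e]
    exact (VV v).map_sub_lt h3 hy
  have h5 : VV v (((k ^ 2 + 1 : ℤ)) : v.adicCompletion K) < 1 := by
    have e : (((k ^ 2 + 1 : ℤ)) : v.adicCompletion K) =
        (z ^ 2 + 1) - (z - (k : v.adicCompletion K)) * (z + (k : v.adicCompletion K)) := by
      push_cast
      ring
    rw [e]
    refine (VV v).map_sub_lt hz ?_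
    rw [map_mul]
    exact mul_lt_one_of_lt_of_le h4 ((VV v).map_add_le h1 (vv_le_one v k))
  have h6 : ¬ ((3 : ℕ) : ℤ) ∣ k ^ 2 + 1 := by
    push_cast
    intro h7
    have h8 : k % 3 = 0 ∨ k % 3 = 1 ∨ k % 3 = 2 := by omega
    have h9 : (k ^ 2 + 1) % 3 = 0 := Int.emod_eq_zero_of_dvd h7
    rcases h8 with h8 | h8 | h8 <;> simp [pow_two, Int.add_emod, Int.mul_emod, h8] at h9
  rw [vv_one p3 v hv _ h6] at h5
  exact lt_irrefl _ h5

theorem below_iff {p : ℕ} (hp : p.Prime) (v : HeightOneSpectrum (𝓞 K)) :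
    below v = ⟨p, hp⟩ ↔ (below v : ℕ) = p :=
  ⟨fun h => congrArg Subtype.val h, fun h => Subtype.ext h⟩

theorem mem_of_below {p : ℕ} {v : HeightOneSpectrum (𝓞 K)} (h : (below v : ℕ) = p) :
    ((p : ℕ) : 𝓞 K) ∈ v.asIdeal := by
  have := (nm_eq v).2.2
  rwa [h] at this

/-- the places over `3` -/
theorem part3 (h : Qd m K r) (hm : Squarefree m) (hm1 : m ≠ 1) :
    ∃ S : Finset (HeightOneSpectrum (𝓞 K)), (∀ u, u ∈ S ↔ (below u : ℕ) = 3) ∧
      ∏ u ∈ S, c (WN 1) u = if (3 : ℤ) ∣ m then 2 else 4 := by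
  by_cases h3 : (3 : ℤ) ∣ m
  · obtain ⟨v, hall, e3, er⟩ := ram_one h hm hm1 ⟨3, p3⟩ (by exact_mod_cast h3)
    have hvb := (below_iff p3 v).1 ((hall v).2 rfl)
    have hvp := mem_of_below hvb
    refine ⟨{v}, fun u => ?_, ?_⟩
    · rw [Finset.mem_singleton, ← hall, below_iff]
    · rw [Finset.prod_singleton, if_pos h3, WN_one]
      show (E0 W5 (v.adicCompletion K) Valued.v).index = 2
      have e3' : VV v (3 : v.adicCompletion K) = exp (-2 : ℤ) := by exact_mod_cast e3
      refine l_3ns (VV v) (vv_le_one v) (vv_two p3 (by norm_num) v hvp) ?_ ?_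
        (ns3 h hm hm1 v hvp 0 ?_)
      · rw [e3', ← exp_zero, exp_lt_exp]
        norm_num
      · rw [← Valuation.ne_zero_iff (VV v), e3']
        exact exp_ne_zero
      · rw [zero_pow two_ne_zero, zero_sub, dvd_neg]
        exact_mod_cast h3
  · have h6 : ¬ (((3 : ℕ)) : ℤ) ∣ 2 * m := by
      push_cast
      omega
    have val : ∀ v : HeightOneSpectrum (𝓞 K), (below v : ℕ) = 3 →
        VV v (3 : v.adicCompletion K) = exp (-1 : ℤ) := by
      intro v hv
      have := vv_p h p3 h6 v (mem_of_below hv)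
      exact_mod_cast this
    rcases (by omega : m % 3 = 1 ∨ m % 3 = 2) with hm3 | hm3
    · have hd : (((3 : ℕ)) : ℤ) ∣ 1 ^ 2 - m := by
        push_cast
        omega
      obtain ⟨v, w, hne, hall⟩ := split_two h hm hm1 ⟨3, p3⟩ (by norm_num) h6 1 hd
      have hc : ∀ u : HeightOneSpectrum (𝓞 K), (below u : ℕ) = 3 → c (WN 1) u = 2 := by
        intro u hu
        have hup := mem_of_below hu
        rw [WN_one]
        show (E0 W5 (u.adicCompletion K) Valued.v).index = 2
        refine l_3ns (VV u) (vv_le_one u) (vv_two p3 (by norm_num) u hup) ?_ ?_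
          (ns3 h hm hm1 u hup 1 hd)
        · rw [val u hu, ← exp_zero, exp_lt_exp]
          norm_num
        · rw [← Valuation.ne_zero_iff (VV u), val u hu]
          exact exp_ne_zero
      refine ⟨{v, w}, fun u => ?_, ?_⟩
      · rw [Finset.mem_insert, Finset.mem_singleton, ← hall, below_iff]
      · rw [Finset.prod_pair hne, hc v ((below_iff p3 v).1 ((hall v).2 (Or.inl rfl))),
          hc w ((below_iff p3 w).1 ((hall w).2 (Or.inr rfl))), if_neg h3]
        norm_num
    · have hns : ∀ k : ℤ, ¬ (((3 : ℕ)) : ℤ) ∣ k ^ 2 - m := by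
        push_cast
        intro k hk
        have h8 : k % 3 = 0 ∨ k % 3 = 1 ∨ k % 3 = 2 := by omega
        have h9 : (k ^ 2 - m) % 3 = 0 := Int.emod_eq_zero_of_dvd hk
        rcases h8 with h8 | h8 | h8 <;> simp [pow_two, Int.sub_emod, Int.mul_emod, h8, hm3] at h9
      obtain ⟨v, hall⟩ := inert_one h hm hm1 ⟨3, p3⟩ hns
      have hvb := (below_iff p3 v).1 ((hall v).2 rfl)
      have hvp := mem_of_below hvb
      refine ⟨{v}, fun u => ?_, ?_⟩
      · rw [Finset.mem_singleton, ← hall, below_iff]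
      · rw [Finset.prod_singleton, if_neg h3, WN_one]
        show (E0 W5 (v.adicCompletion K) Valued.v).index = 4
        refine l_3s (VV v) (vv_le_one v) (vv_two p3 (by norm_num) v hvp) (val v hvb)
          (i := algebraMap K (v.adicCompletion K) r) ?_
          (fun z hz => hensel p3 (by norm_num) v hvp z hz)
        have e : (algebraMap K (v.adicCompletion K) r) ^ 2 + 1 =
            (((m + 1 : ℤ)) : v.adicCompletion K) := by
          rw [← map_pow, h.hr, map_intCast, Int.cast_add, Int.cast_one]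
        rw [e]
        have h7 : (((m + 1 : ℤ)) : 𝓞 K) ∈ v.asIdeal := by
          apply mem_of_dvd v hvp
          push_cast
          omega
        have := vv_emb v _ h7
        rwa [map_intCast] at this

/-- the places over `5` -/
theorem part5 (h : Qd m K r) (hm : Squarefree m) (hm1 : m ≠ 1) :
    ∃ S : Finset (HeightOneSpectrum (𝓞 K)), (∀ u, u ∈ S ↔ (below u : ℕ) = 5) ∧
      ∏ u ∈ S, c (WN 1) u = if (5 : ℤ) ∣ m then 8 else if jacobiSym m 5 = 1 then 16 else 4 := by
  by_cases h5 : (5 : ℤ) ∣ m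
  · obtain ⟨v, hall, e5, er⟩ := ram_one h hm hm1 ⟨5, p5⟩ (by exact_mod_cast h5)
    have hvb := (below_iff p5 v).1 ((hall v).2 rfl)
    have hvp := mem_of_below hvb
    refine ⟨{v}, fun u => ?_, ?_⟩
    · rw [Finset.mem_singleton, ← hall, below_iff]
    · rw [Finset.prod_singleton, if_pos h5, WN_one]
      show (E0 W5 (v.adicCompletion K) Valued.v).index = 8
      refine l_5eight (VV v) (vv_le_one v) (vv_two p5 (by norm_num) v hvp) ?_ er
        (fun z hz => hensel p5 (by norm_num) v hvp z hz)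
      exact_mod_cast e5
  · have h10 : ¬ (((5 : ℕ)) : ℤ) ∣ 2 * m := by
      push_cast
      omega
    have hc : ∀ u : HeightOneSpectrum (𝓞 K), (below u : ℕ) = 5 → c (WN 1) u = 4 := by
      intro u hu
      have hup := mem_of_below hu
      rw [WN_one]
      show (E0 W5 (u.adicCompletion K) Valued.v).index = 4
      refine l_5four (VV u) (vv_le_one u) (vv_two p5 (by norm_num) u hup) ?_
        (fun z hz => hensel p5 (by norm_num) u hup z hz)
      have := vv_p h p5 h10 u hup
      exact_mod_cast this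
    rw [if_neg h5]
    by_cases hj : jacobiSym m 5 = 1
    · rw [if_pos hj]
      obtain ⟨k, hk⟩ : ∃ k : ℤ, (((5 : ℕ)) : ℤ) ∣ k ^ 2 - m := by
        rcases (jac5 m).1 hj with h1 | h1
        · exact ⟨1, by push_cast; omega⟩
        · exact ⟨2, by push_cast; omega⟩
      obtain ⟨v, w, hne, hall⟩ := split_two h hm hm1 ⟨5, p5⟩ (by norm_num) h10 k hk
      refine ⟨{v, w}, fun u => ?_, ?_⟩
      · rw [Finset.mem_insert, Finset.mem_singleton, ← hall, below_iff]
      · rw [Finset.prod_pair hne, hc v ((below_iff p5 v).1 ((hall v).2 (Or.inl rfl))),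
          hc w ((below_iff p5 w).1 ((hall w).2 (Or.inr rfl)))]
        norm_num
    · rw [if_neg hj]
      rw [jac5] at hj
      have hns : ∀ k : ℤ, ¬ (((5 : ℕ)) : ℤ) ∣ k ^ 2 - m := by
        push_cast
        intro k hk
        have h7 : m % 5 = 2 ∨ m % 5 = 3 := by omega
        have h8 : k % 5 = 0 ∨ k % 5 = 1 ∨ k % 5 = 2 ∨ k % 5 = 3 ∨ k % 5 = 4 := by omega
        have h9 : (k ^ 2 - m) % 5 = 0 := Int.emod_eq_zero_of_dvd hk
        rcases h7 with h7 | h7 <;> rcases h8 with h8 | h8 | h8 | h8 | h8 <;>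
          simp [pow_two, Int.sub_emod, Int.mul_emod, h8, h7] at h9
      obtain ⟨v, hall⟩ := inert_one h hm hm1 ⟨5, p5⟩ hns
      have hvb := (below_iff p5 v).1 ((hall v).2 rfl)
      refine ⟨{v}, fun u => ?_, ?_⟩
      · rw [Finset.mem_singleton, ← hall, below_iff]
      · rw [Finset.prod_singleton, hc v hvb]

/-- **K15-TAM** -/
theorem t_TAM : S_TAM := by
  intro m hm hm1 K _ _ r hq
  obtain ⟨S3, hS3, e3⟩ := part3 hq hm hm1
  obtain ⟨S5, hS5, e5⟩ := part5 hq hm hm1
  have hsub : ∀ v : HeightOneSpectrum (𝓞 K), c (WN 1) v ≠ 1 → v ∈ S3 ∪ S5 := by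
    intro v hv
    rw [Finset.mem_union, hS3, hS5]
    by_contra hcon
    push Not at hcon
    exact hv (c_good v hcon.1 hcon.2)
  refine ⟨(S3 ∪ S5).finite_toSet.subset fun v hv => ?_, ?_⟩
  · rw [Finset.mem_coe]
    exact hsub v hv
  · unfold Tam TK
    have hsub' : Function.mulSupport (fun v : HeightOneSpectrum (𝓞 K) => c (WN 1) v) ⊆
        ((S3 ∪ S5 : Finset (HeightOneSpectrum (𝓞 K))) : Set _) := by
      intro u hu
      rw [Finset.mem_coe]
      exact hsub u hu
    have hdis : Disjoint S3 S5 := by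
      rw [Finset.disjoint_left]
      intro u h1 h2
      rw [hS3] at h1
      rw [hS5, h1] at h2
      norm_num at h2
    rw [finprod_eq_prod_of_mulSupport_subset _ hsub', Finset.prod_union hdis, e3, e5]

end tam

end Pool.Agent.N152.K15
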